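import Pool.Agent.L7h66.UA.Stm

set_option autoImplicit false

/-!
# Project UA, part FRC: cellular groups have finitely many orbits
-/

namespace Pool.Agent.L7h42.UA

open Set Function
open Pool.Agent.L7h71.UN (Closed Good Sw IsSwap Dom act)
open Pool.Agent.L7h66.UA (GD GB FS GS CellG S_FRC)

section

variable {d m : ℕ} {sz : Fin m → ℕ} (e : ℕ ≃ Dom d m sz)

/-- the exchange of the cells `k`, `k'` of the family `i` -/
def ex (i : Fin m) (k k' : ℕ) : Fin m → Equiv.Perm ℕ :=
  Function.update (fun _ => 1) i (Equiv.swap k k')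

theorem act_inl (i : Fin m) (k k' : ℕ) (a : Fin d) :
    act (d := d) (sz := sz) (ex i k k') (Sum.inl a) = Sum.inl a := rfl

theorem act_inr (i : Fin m) (k k' : ℕ) (i' : Fin m) (l : ℕ) (j : Fin (sz i')) :
    act (d := d) (sz := sz) (ex i k k') (Sum.inr ⟨i', (l, j)⟩) =
      Sum.inr ⟨i', (ex i k k' i' l, j)⟩ := rfl

theorem ex_self (i : Fin m) (k k' l : ℕ) : ex i k k' i l = Equiv.swap k k' l := by
  rw [ex, Function.update_self]

theorem ex_ne (i : Fin m) (k k' : ℕ) (i' : Fin m) (h : i' ≠ i) (l : ℕ) : ex i k k' i' l = l := by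
  rw [ex, Function.update_of_ne h]
  rfl

/-- points outside of the two cells are fixed -/
theorem act_fix (i : Fin m) (k k' : ℕ) (p : Dom d m sz) (h1 : ∀ j, p ≠ Sum.inr ⟨i, (k, j)⟩)
    (h2 : ∀ j, p ≠ Sum.inr ⟨i, (k', j)⟩) : act (ex i k k') p = p := by
  rcases p with a | ⟨i', l, j⟩
  · rfl
  · rw [act_inr]
    by_cases hi : i' = i
    · subst hi
      rw [ex_self]
      have hk : l ≠ k := by
        rintro rfl
        exact h1 j rfl
      have hk' : l ≠ k' := by
        rintro rfl
        exact h2 j rfl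
      rw [Equiv.swap_apply_of_ne_of_ne hk hk']
    · rw [ex_ne _ _ _ _ hi]

variable {e} {G : Subgroup (Equiv.Perm ℕ)}
  (hG : ∀ σ : Fin m → Equiv.Perm ℕ, ∃ g ∈ G, ∀ v, g v = e.symm (act σ (e v)))
include hG

theorem good_cell (i : Fin m) (k : ℕ) :
    Good G (fun j : Fin (sz i) => e.symm (Sum.inr ⟨i, (k, j)⟩)) := by
  classical
  constructor
  · intro j j' h
    have h1 := e.symm.injective h
    have h2 := Sum.inr_injective h1
    simpa using h2
  · intro Z
    obtain ⟨k', hk'⟩ := Infinite.exists_notMem_finset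
      (insert k (Z.image fun z => Sum.elim (fun _ => 0) (fun w => w.2.1) (e z)))
    rw [Finset.mem_insert, not_or] at hk'
    refine ⟨fun j => e.symm (Sum.inr ⟨i, (k', j)⟩), fun j hj => ?_, fun j j' h => ?_, ?_⟩
    · refine hk'.2 (Finset.mem_image.2 ⟨_, hj, ?_⟩)
      simp
    · have h1 := Sum.inr_injective (e.symm.injective h)
      have h2 : k = k' := by
        have := congrArg (fun w : (Σ i : Fin m, ℕ × Fin (sz i)) => w.2.1) h1
        simpa using this
      exact hk'.1 h2.symm
    · obtain ⟨g, hg, h⟩ := hG (ex i k k')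
      refine ⟨g, hg, fun j => ?_, fun j => ?_, fun x h1 h2 => ?_⟩
      · rw [h, Equiv.apply_symm_apply, act_inr, ex_self, Equiv.swap_apply_left]
      · rw [h, Equiv.apply_symm_apply, act_inr, ex_self, Equiv.swap_apply_right]
      · rw [h, act_fix, Equiv.symm_apply_apply]
        · intro j hj
          exact h1 j (by show x = e.symm _; rw [← hj, Equiv.symm_apply_apply])
        · intro j hj
          exact h2 j (by show x = e.symm _; rw [← hj, Equiv.symm_apply_apply])

theorem gd_inl {v : ℕ} (hv : v ∈ GD G) : ∃ a, e v = Sum.inl a := by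
  rcases h : e v with a | ⟨i, k, j⟩
  · exact ⟨a, rfl⟩
  · refine absurd ⟨j, ?_⟩ (hv _ _ (good_cell hG i k))
    show e.symm (Sum.inr ⟨i, (k, j)⟩) = v
    rw [← h, Equiv.symm_apply_apply]

end

theorem s_FRC : S_FRC := by
  classical
  rintro G ⟨d, m, sz, e, hG⟩
  constructor
  · refine (Set.finite_range fun a : Fin d => e.symm (Sum.inl a)).subset ?_
    intro v hv
    obtain ⟨a, ha⟩ := gd_inl hG hv
    refine ⟨a, ?_⟩
    show e.symm (Sum.inl a) = v
    rw [← ha, Equiv.symm_apply_apply]
  · refine ⟨Finset.image (fun a : Fin d => e.symm (Sum.inl a)) Finset.univ ∪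
      Finset.image (fun w : (Σ i : Fin m, Fin (sz i)) => e.symm (Sum.inr ⟨w.1, (0, w.2)⟩))
        Finset.univ, fun v => ?_⟩
    rcases h : e v with a | ⟨i, k, j⟩
    · refine ⟨1, ⟨G.one_mem, ?_, fun _ _ => rfl⟩, ?_⟩
      · convert Set.finite_empty
        ext x
        simp
      · rw [Finset.mem_union]
        left
        refine Finset.mem_image.2 ⟨a, Finset.mem_univ _, ?_⟩
        rw [← h, Equiv.symm_apply_apply]
        rfl
    · obtain ⟨g, hg, h1⟩ := hG (ex i k 0)
      refine ⟨g, ⟨hg, ?_, fun x hx => ?_⟩, ?_⟩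
      · refine ((Set.finite_range fun j : Fin (sz i) => e.symm (Sum.inr ⟨i, (k, j)⟩)).union
          (Set.finite_range fun j : Fin (sz i) => e.symm (Sum.inr ⟨i, (0, j)⟩))).subset ?_
        intro x hx
        by_contra hc
        rw [Set.mem_union, not_or] at hc
        apply hx
        rw [h1, act_fix, Equiv.symm_apply_apply]
        · intro j hj
          exact hc.1 ⟨j, by show e.symm _ = x; rw [← hj, Equiv.symm_apply_apply]⟩
        · intro j hj
          exact hc.2 ⟨j, by show e.symm _ = x; rw [← hj, Equiv.symm_apply_apply]⟩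
      · obtain ⟨a, ha⟩ := gd_inl hG hx
        rw [h1, ha, act_inl, ← ha, Equiv.symm_apply_apply]
      · rw [Finset.mem_union]
        right
        refine Finset.mem_image.2 ⟨⟨i, j⟩, Finset.mem_univ _, ?_⟩
        rw [h1, h, act_inr, ex_self, Equiv.swap_apply_left]

end Pool.Agent.L7h42.UA

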